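import Pool.Agent.Helper47.UG.Stmts

/-!
Row COR of project UG: the counting argument.
-/

set_option autoImplicit false

namespace Pool.Agent.Helper19.UG

open Finset
open scoped Classical
open Pool.Agent.Helper47.UG
open Pool.Agent.Helper37.DG (box sbox)

theorem st_COR : ST_COR := by
  intro N M P Fr Gd q X R hP hP1 hR hX1 hX2 hX3 hR2
  set Bad := (sbox N M).filter (fun v => v ≠ 0 ∧ Fr v ∧ ¬ Gd v) with hBad
  set T := (P ×ˢ P).filter (fun u => Fr (u.1 - u.2)) with hT
  set Tg := (P ×ˢ P).filter (fun u => u.1 ≠ u.2 ∧ Fr (u.1 - u.2) ∧ Gd (u.1 - u.2)) with hTg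
  set Tb := (P ×ˢ P).filter (fun u => u.1 ≠ u.2 ∧ Fr (u.1 - u.2) ∧ ¬ Gd (u.1 - u.2)) with hTb
  set Im := P.offDiag.image (fun u => q (u.1 - u.2)) with hIm
  have hdiff : ∀ u1 ∈ P, ∀ u2 ∈ P, u1 - u2 ∈ sbox N M := by
    intro u1 h1 u2 h2
    have h3 := hP h1
    have h4 := hP h2
    simp only [Pool.Agent.Helper37.DG.box, Pool.Agent.Helper37.DG.sbox, Finset.mem_product, Finset.mem_Ico, Finset.mem_Icc] at h3 h4 ⊢
    simp only [Prod.fst_sub, Prod.snd_sub]
    omega
  have hcov : T ⊆ (P.image (fun u => (u, u))) ∪ (Tb ∪ Tg) := by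
    intro u hu
    rw [hT, Finset.mem_filter, Finset.mem_product] at hu
    obtain ⟨⟨hu1, hu2⟩, hu3⟩ := hu
    rw [Finset.mem_union, Finset.mem_union]
    by_cases h : u.1 = u.2
    · left
      rw [Finset.mem_image]
      exact ⟨u.1, hu1, Prod.ext rfl h⟩
    · right
      by_cases hg : Gd (u.1 - u.2)
      · right
        rw [hTg, Finset.mem_filter, Finset.mem_product]
        exact ⟨⟨hu1, hu2⟩, h, hu3, hg⟩
      · left
        rw [hTb, Finset.mem_filter, Finset.mem_product]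
        exact ⟨⟨hu1, hu2⟩, h, hu3, hg⟩
  have hinj : Function.Injective (fun u : (ℤ × ℤ) × (ℤ × ℤ) => (u.1 - u.2, u.2)) := by
    intro u v huv
    simp only [Prod.mk.injEq] at huv
    obtain ⟨h1, h2⟩ := huv
    refine Prod.ext ?_ h2
    rw [h2] at h1
    exact sub_left_injective h1
  have hTb2 : Tb.card ≤ Bad.card * P.card := by
    rw [← Finset.card_product, ← Finset.card_image_of_injective Tb hinj]
    refine Finset.card_le_card ?_
    intro w hw
    rw [Finset.mem_image] at hw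
    obtain ⟨u, hu, rfl⟩ := hw
    rw [hTb, Finset.mem_filter, Finset.mem_product] at hu
    obtain ⟨⟨hu1, hu2⟩, hu3, hu4, hu5⟩ := hu
    rw [Finset.mem_product]
    refine ⟨?_, hu2⟩
    rw [hBad, Finset.mem_filter]
    exact ⟨hdiff _ hu1 _ hu2, sub_ne_zero.mpr hu3, hu4, hu5⟩
  set V := Tg.image (fun u => u.1 - u.2) with hV
  have hTg2 : Tg.card ≤ V.card * P.card := by
    rw [← Finset.card_product, ← Finset.card_image_of_injective Tg hinj]
    refine Finset.card_le_card ?_
    intro w hw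
    rw [Finset.mem_image] at hw
    obtain ⟨u, hu, rfl⟩ := hw
    rw [Finset.mem_product]
    refine ⟨Finset.mem_image_of_mem _ hu, ?_⟩
    rw [hTg, Finset.mem_filter, Finset.mem_product] at hu
    exact hu.1.2
  have hVmem : ∀ v ∈ V, v ∈ sbox N M ∧ v ≠ 0 ∧ Fr v ∧ Gd v ∧ q v ∈ Im := by
    intro v hv
    rw [hV, Finset.mem_image] at hv
    obtain ⟨u, hu, rfl⟩ := hv
    rw [hTg, Finset.mem_filter, Finset.mem_product] at hu
    obtain ⟨⟨hu1, hu2⟩, hu3, hu4, hu5⟩ := hu
    refine ⟨hdiff _ hu1 _ hu2, sub_ne_zero.mpr hu3, hu4, hu5, ?_⟩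
    rw [hIm, Finset.mem_image]
    exact ⟨u, Finset.mem_offDiag.mpr ⟨hu1, hu2, hu3⟩, rfl⟩
  have hVcard : (V.card : ℝ) ≤ R * Im.card := by
    have h1 : V.card = ∑ s ∈ Im, (V.filter (fun v => q v = s)).card :=
      Finset.card_eq_sum_card_fiberwise (fun v hv => (hVmem v hv).2.2.2.2)
    rw [h1]
    push_cast
    calc (∑ s ∈ Im, ((V.filter (fun v => q v = s)).card : ℝ)) ≤ ∑ _s ∈ Im, R := by
          refine Finset.sum_le_sum (fun s _ => ?_)
          refine hR2 s _ (fun v hv => ?_)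
          rw [Finset.mem_filter] at hv
          obtain ⟨hv1, hv2⟩ := hv
          obtain ⟨h2, h3, h4, h5, _⟩ := hVmem v hv1
          exact ⟨h2, h3, h4, h5, hv2⟩
      _ = R * Im.card := by rw [Finset.sum_const, nsmul_eq_mul, mul_comm]
  have hTcard : T.card ≤ P.card + (Bad.card * P.card + V.card * P.card) := by
    calc T.card ≤ ((P.image (fun u => (u, u))) ∪ (Tb ∪ Tg)).card := Finset.card_le_card hcov
      _ ≤ (P.image (fun u => (u, u))).card + (Tb ∪ Tg).card := Finset.card_union_le _ _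
      _ ≤ P.card + (Tb.card + Tg.card) :=
          Nat.add_le_add Finset.card_image_le (Finset.card_union_le _ _)
      _ ≤ _ := Nat.add_le_add_left (Nat.add_le_add hTb2 hTg2) _
  have hTR : (T.card : ℝ) ≤ P.card + (Bad.card * P.card + V.card * P.card) := by
    exact_mod_cast hTcard
  have hPpos : (0 : ℝ) ≤ (P.card : ℝ) := Nat.cast_nonneg _
  have h1 : (V.card : ℝ) * P.card ≤ R * Im.card * P.card :=
    mul_le_mul_of_nonneg_right hVcard hPpos
  have h2 : X ≤ (T.card : ℝ) := hX2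
  nlinarith

end Pool.Agent.Helper19.UG
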