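import Pool.Agent.Helper47.UG.Stmts

/-!
Row LOC of project UG: zeros of a primitive binary quadratic form modulo prime powers.
-/

set_option autoImplicit false

namespace Pool.Agent.Helper19.UG

open Finset
open scoped Classical
open Pool.Agent.Helper47.UG

theorem half_dvd {p k : ℕ} (hp : p.Prime) {m n : ℤ} (h : ((p : ℤ) ^ k) ∣ m * n) :
    ((p : ℤ) ^ ((k + 1) / 2)) ∣ m ∨ ((p : ℤ) ^ ((k + 1) / 2)) ∣ n := by
  have h1 : p ^ k ∣ m.natAbs * n.natAbs := by
    have h2 := Int.natAbs_dvd_natAbs.mpr h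
    rwa [Int.natAbs_mul, Int.natAbs_pow, Int.natAbs_natCast] at h2
  have hconv : ∀ (t : ℤ) (e : ℕ), p ^ e ∣ t.natAbs → ((p : ℤ) ^ e) ∣ t := by
    intro t e ht
    have h3 : ((p ^ e : ℕ) : ℤ) ∣ t := Int.natCast_dvd.mpr ht
    push_cast at h3
    exact h3
  by_cases hm : m.natAbs = 0
  · left
    rw [Int.natAbs_eq_zero] at hm
    rw [hm]
    exact dvd_zero _
  by_cases hn : n.natAbs = 0
  · right
    rw [Int.natAbs_eq_zero] at hn
    rw [hn]
    exact dvd_zero _
  have h4 : k ≤ (m.natAbs * n.natAbs).factorization p :=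
    (hp.pow_dvd_iff_le_factorization (mul_ne_zero hm hn)).mp h1
  rw [Nat.factorization_mul hm hn, Finsupp.add_apply] at h4
  by_cases h5 : (k + 1) / 2 ≤ m.natAbs.factorization p
  · left
    exact hconv _ _ ((hp.pow_dvd_iff_le_factorization hm).mpr h5)
  · right
    exact hconv _ _ ((hp.pow_dvd_iff_le_factorization hn).mpr (by omega))

theorem card_le_congr (S : Finset ℕ) (m n : ℕ) (_hm : 0 < m) (hS : ∀ x ∈ S, x < m * n)
    (h : ∀ x ∈ S, ∀ y ∈ S, x % m = y % m) : S.card ≤ n := by
  have h1 : S.card ≤ (Finset.range n).card := by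
    refine Finset.card_le_card_of_injOn (fun x => x / m) ?_ ?_
    · intro x hx
      simp only [Finset.coe_range, Set.mem_Iio]
      exact Nat.div_lt_of_lt_mul (hS x hx)
    · intro x hx y hy hxy
      have h2 := h x hx y hy
      have h3 := Nat.div_add_mod x m
      have h4 := Nat.div_add_mod y m
      simp only at hxy
      rw [← h3, ← h4, hxy, h2]
  rwa [Finset.card_range] at h1

theorem mod_eq_of_dvd {m : ℕ} {x y : ℕ} (h : (m : ℤ) ∣ (x : ℤ) - y) : x % m = y % m := by
  have h1 : (y : ℤ) ≡ (x : ℤ) [ZMOD (m : ℤ)] := (Int.modEq_iff_dvd).mpr h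
  have h2 : y ≡ x [MOD m] := (Int.natCast_modEq_iff).mp h1
  exact h2.symm

/-- the fibre over a fixed second coordinate -/
theorem fibre_card (a b c : ℤ) (p k y : ℕ) (hp : p.Prime) (ha : ¬ (p : ℤ) ∣ a) :
    ((Finset.range (p ^ k)).filter
      (fun x : ℕ => ((p : ℤ) ^ k) ∣ qf a b c ((x : ℤ), (y : ℤ)))).card
      ≤ 2 * p ^ (k - (k + 1) / 2) := by
  set X := (Finset.range (p ^ k)).filter
      (fun x : ℕ => ((p : ℤ) ^ k) ∣ qf a b c ((x : ℤ), (y : ℤ))) with hX
  set h := (k + 1) / 2 with hh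
  have hhk : h ≤ k := by omega
  have hpk : p ^ k = p ^ h * p ^ (k - h) := by
    rw [← pow_add]
    congr 1
    omega
  have hph : 0 < p ^ h := pow_pos hp.pos _
  have hcop : IsCoprime ((p : ℤ) ^ h) a := by
    have h1 : IsCoprime (p : ℤ) a :=
      (Prime.coprime_iff_not_dvd (Nat.prime_iff_prime_int.mp hp)).mpr ha
    exact h1.pow_left
  rcases Finset.eq_empty_or_nonempty X with hE | ⟨x0, hx0⟩
  · rw [hE, Finset.card_empty]
    exact Nat.zero_le _
  have hx0' : ((p : ℤ) ^ k) ∣ qf a b c ((x0 : ℤ), (y : ℤ)) := by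
    rw [hX, Finset.mem_filter] at hx0
    exact hx0.2
  set X1 := X.filter (fun x : ℕ => ((p : ℤ) ^ h) ∣ (x : ℤ) - x0) with hX1
  set X2 := X.filter (fun x : ℕ => ((p : ℤ) ^ h) ∣ a * ((x : ℤ) + x0) + b * y) with hX2
  have hcov : X ⊆ X1 ∪ X2 := by
    intro x hx
    have hx' : ((p : ℤ) ^ k) ∣ qf a b c ((x : ℤ), (y : ℤ)) := by
      rw [hX, Finset.mem_filter] at hx
      exact hx.2
    have h1 : ((p : ℤ) ^ k) ∣ ((x : ℤ) - x0) * (a * ((x : ℤ) + x0) + b * y) := by
      have h2 := dvd_sub hx' hx0'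
      have h3 : qf a b c ((x : ℤ), (y : ℤ)) - qf a b c ((x0 : ℤ), (y : ℤ))
          = ((x : ℤ) - x0) * (a * ((x : ℤ) + x0) + b * y) := by
        simp only [qf]
        ring
      rwa [h3] at h2
    rw [Finset.mem_union]
    rcases half_dvd hp h1 with h4 | h4
    · left
      rw [hX1, Finset.mem_filter]
      exact ⟨hx, h4⟩
    · right
      rw [hX2, Finset.mem_filter]
      exact ⟨hx, h4⟩
  have hlt : ∀ x ∈ X, x < p ^ h * p ^ (k - h) := by
    intro x hx
    rw [hX, Finset.mem_filter, Finset.mem_range] at hx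
    rw [← hpk]
    exact hx.1
  have hc1 : X1.card ≤ p ^ (k - h) := by
    refine card_le_congr X1 (p ^ h) (p ^ (k - h)) hph ?_ ?_
    · intro x hx
      rw [hX1, Finset.mem_filter] at hx
      exact hlt x hx.1
    · intro x hx x' hx'
      rw [hX1, Finset.mem_filter] at hx hx'
      refine mod_eq_of_dvd ?_
      push_cast
      have h1 := dvd_sub hx.2 hx'.2
      have h2 : (x : ℤ) - x0 - ((x' : ℤ) - x0) = (x : ℤ) - x' := by ring
      rwa [h2] at h1
  have hc2 : X2.card ≤ p ^ (k - h) := by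
    refine card_le_congr X2 (p ^ h) (p ^ (k - h)) hph ?_ ?_
    · intro x hx
      rw [hX2, Finset.mem_filter] at hx
      exact hlt x hx.1
    · intro x hx x' hx'
      rw [hX2, Finset.mem_filter] at hx hx'
      refine mod_eq_of_dvd ?_
      push_cast
      have h1 := dvd_sub hx.2 hx'.2
      have h2 : a * ((x : ℤ) + x0) + b * y - (a * ((x' : ℤ) + x0) + b * y)
          = a * ((x : ℤ) - x') := by ring
      rw [h2] at h1
      exact hcop.dvd_of_dvd_mul_left h1
  calc X.card ≤ (X1 ∪ X2).card := Finset.card_le_card hcov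
    _ ≤ X1.card + X2.card := Finset.card_union_le _ _
    _ ≤ p ^ (k - h) + p ^ (k - h) := Nat.add_le_add hc1 hc2
    _ = 2 * p ^ (k - h) := (two_mul _).symm

/-- the solutions -/
noncomputable def sol (a b c : ℤ) (p k : ℕ) : Finset (ℕ × ℕ) :=
  (Finset.range (p ^ k) ×ˢ Finset.range (p ^ k)).filter
    (fun v => ((p : ℤ) ^ k) ∣ qf a b c ((v.1 : ℤ), (v.2 : ℤ)))

theorem sol_card (a b c : ℤ) (p k : ℕ) (hp : p.Prime) (ha : ¬ (p : ℤ) ∣ a) :
    (sol a b c p k).card ≤ 2 * p ^ (2 * k - (k + 1) / 2) := by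
  have h1 : (sol a b c p k).card = ∑ y ∈ Finset.range (p ^ k),
      ((sol a b c p k).filter (fun v => v.2 = y)).card := by
    refine Finset.card_eq_sum_card_fiberwise (fun v hv => ?_)
    have hv' : v ∈ sol a b c p k := hv
    unfold sol at hv'
    rw [Finset.mem_filter, Finset.mem_product] at hv'
    exact hv'.1.2
  have h2 : ∀ y ∈ Finset.range (p ^ k),
      ((sol a b c p k).filter (fun v => v.2 = y)).card ≤ 2 * p ^ (k - (k + 1) / 2) := by
    intro y _
    refine le_trans ?_ (fibre_card a b c p k y hp ha)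
    refine Finset.card_le_card_of_injOn Prod.fst ?_ ?_
    · intro v hv
      have hv' : v ∈ (sol a b c p k).filter (fun v => v.2 = y) := hv
      unfold sol at hv'
      rw [Finset.mem_filter, Finset.mem_filter, Finset.mem_product] at hv'
      obtain ⟨⟨⟨h3, _⟩, h5⟩, h6⟩ := hv'
      rw [h6] at h5
      show v.1 ∈ _
      rw [Finset.mem_coe, Finset.mem_filter]
      exact ⟨h3, h5⟩
    · intro v hv w hw hvw
      have hv' : v ∈ (sol a b c p k).filter (fun v => v.2 = y) := hv
      have hw' : w ∈ (sol a b c p k).filter (fun v => v.2 = y) := hw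
      rw [Finset.mem_filter] at hv' hw'
      exact Prod.ext hvw (hv'.2.trans hw'.2.symm)
  rw [h1]
  calc ∑ y ∈ Finset.range (p ^ k), ((sol a b c p k).filter (fun v => v.2 = y)).card
      ≤ ∑ _y ∈ Finset.range (p ^ k), 2 * p ^ (k - (k + 1) / 2) := Finset.sum_le_sum h2
    _ = p ^ k * (2 * p ^ (k - (k + 1) / 2)) := by
        rw [Finset.sum_const, Finset.card_range, smul_eq_mul]
    _ = 2 * p ^ (2 * k - (k + 1) / 2) := by
        rw [mul_left_comm, ← pow_add]
        congr 2
        omega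

theorem st_LOC : ST_LOC := by
  intro a b c p k hprm hp _
  show (sol a b c p k).card ≤ 2 * p ^ (2 * k - (k + 1) / 2)
  by_cases ha : (p : ℤ) ∣ a
  · by_cases hc : (p : ℤ) ∣ c
    · have hb : ¬ (p : ℤ) ∣ b := fun hb => hprm p hp ⟨ha, hb, hc⟩
      have habc : ¬ (p : ℤ) ∣ a + b + c := by
        intro h
        apply hb
        have h1 : b = (a + b + c) - (a + c) := by ring
        rw [h1]
        exact dvd_sub h (dvd_add ha hc)
      refine le_trans ?_ (sol_card (a + b + c) (b + 2 * c) c p k hp habc)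
      have hpk : 0 < p ^ k := pow_pos hp.pos _
      refine Finset.card_le_card_of_injOn
        (fun v : ℕ × ℕ => (v.1, (v.2 + (p ^ k - v.1)) % p ^ k)) ?_ ?_
      · intro v hv
        have hv' : v ∈ sol a b c p k := hv
        unfold sol at hv'
        rw [Finset.mem_filter, Finset.mem_product, Finset.mem_range, Finset.mem_range] at hv'
        obtain ⟨⟨h1, h2⟩, h3⟩ := hv'
        show (v.1, (v.2 + (p ^ k - v.1)) % p ^ k) ∈ ((sol (a + b + c) (b + 2 * c) c p k : Finset (ℕ × ℕ)) : Set (ℕ × ℕ))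
        rw [Finset.mem_coe]
        unfold sol
        rw [Finset.mem_filter, Finset.mem_product, Finset.mem_range, Finset.mem_range]
        refine ⟨⟨h1, Nat.mod_lt _ hpk⟩, ?_⟩
        set y' : ℕ := (v.2 + (p ^ k - v.1)) % p ^ k with hy'
        have h4 : ((p : ℤ) ^ k) ∣ ((v.1 : ℤ) + y') - v.2 := by
          have h5 : ((v.2 + (p ^ k - v.1) : ℕ) : ℤ) = (v.2 : ℤ) + ((p : ℤ) ^ k - v.1) := by
            push_cast [Nat.cast_sub h1.le]
            ring
          have h6 : ((p ^ k : ℕ) : ℤ) ∣ ((v.2 + (p ^ k - v.1) : ℕ) : ℤ) - (y' : ℤ) := by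
            rw [hy']
            have h7 := Nat.div_add_mod (v.2 + (p ^ k - v.1)) (p ^ k)
            refine ⟨(((v.2 + (p ^ k - v.1)) / p ^ k : ℕ) : ℤ), ?_⟩
            have h8 : ((v.2 + (p ^ k - v.1) : ℕ) : ℤ)
                = ((p ^ k : ℕ) : ℤ) * (((v.2 + (p ^ k - v.1)) / p ^ k : ℕ) : ℤ)
                  + (((v.2 + (p ^ k - v.1)) % p ^ k : ℕ) : ℤ) := by
              exact_mod_cast h7.symm
            linarith
          rw [h5] at h6
          push_cast at h6
          have h9 : (v.1 : ℤ) + y' - v.2 = (p : ℤ) ^ k - ((v.2 : ℤ) + ((p : ℤ) ^ k - v.1) - y') := by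
            ring
          rw [h9]
          exact dvd_sub (dvd_refl _) h6
        have h10 : qf (a + b + c) (b + 2 * c) c ((v.1 : ℤ), (y' : ℤ))
            = qf a b c ((v.1 : ℤ), (v.2 : ℤ))
              + (((v.1 : ℤ) + y') - v.2) * (b * v.1 + c * ((v.1 : ℤ) + y' + v.2)) := by
          simp only [qf]
          ring
        rw [h10]
        exact dvd_add h3 (Dvd.dvd.mul_right h4 _)
      · intro v hv w hw hvw
        have hv' : v ∈ sol a b c p k := hv
        have hw' : w ∈ sol a b c p k := hw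
        unfold sol at hv' hw'
        rw [Finset.mem_filter, Finset.mem_product, Finset.mem_range, Finset.mem_range]
          at hv' hw'
        simp only [Prod.mk.injEq] at hvw
        obtain ⟨h1, h2⟩ := hvw
        rw [h1] at h2
        refine Prod.ext h1 ?_
        have h3 : v.2 ≡ w.2 [MOD p ^ k] := Nat.ModEq.add_right_cancel' _ h2
        have h4 := h3
        unfold Nat.ModEq at h4
        rwa [Nat.mod_eq_of_lt hv'.1.2, Nat.mod_eq_of_lt hw'.1.2] at h4
    · refine le_trans ?_ (sol_card c b a p k hp hc)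
      refine Finset.card_le_card_of_injOn Prod.swap ?_ ?_
      · intro v hv
        have hv' : v ∈ sol a b c p k := hv
        unfold sol at hv'
        rw [Finset.mem_filter, Finset.mem_product] at hv'
        obtain ⟨⟨h1, h2⟩, h3⟩ := hv'
        rw [Finset.mem_coe]
        unfold sol
        rw [Finset.mem_filter, Finset.mem_product]
        refine ⟨⟨h2, h1⟩, ?_⟩
        have h4 : qf c b a (((Prod.swap v).1 : ℤ), ((Prod.swap v).2 : ℤ))
            = qf a b c ((v.1 : ℤ), (v.2 : ℤ)) := by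
          simp only [qf, Prod.fst_swap, Prod.snd_swap]
          ring
        rw [h4]
        exact h3
      · intro v _ w _ hvw
        exact Prod.swap_injective hvw
  · exact sol_card a b c p k hp ha

end Pool.Agent.Helper19.UG
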