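import Pool.Agent.Helper19.UG.LOC

/-!
Row UPE of project UG: sieved vectors with value divisible by a prime power.
-/

set_option autoImplicit false

namespace Pool.Agent.Helper19.UG

open Finset
open scoped Classical
open Pool.Agent.Helper47.UG
open Pool.Agent.Helper37.DG (sbox Free sw)

theorem emod_toNat {e : ℕ} (he : 0 < e) (x : ℤ) :
    (x % (e : ℤ)).toNat < e ∧ (((x % (e : ℤ)).toNat : ℕ) : ℤ) = x % (e : ℤ) ∧
      (e : ℤ) ∣ x - (((x % (e : ℤ)).toNat : ℕ) : ℤ) := by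
  have he' : (0 : ℤ) < (e : ℤ) := by exact_mod_cast he
  have h1 := Int.emod_nonneg x he'.ne'
  have h2 := Int.emod_lt_of_pos x he'
  have h3 : (((x % (e : ℤ)).toNat : ℕ) : ℤ) = x % (e : ℤ) := Int.toNat_of_nonneg h1
  refine ⟨?_, h3, ?_⟩
  · have h4 : (((x % (e : ℤ)).toNat : ℕ) : ℤ) < (e : ℤ) := by rw [h3]; exact h2
    exact_mod_cast h4
  · rw [h3]
    exact Int.dvd_self_sub_of_emod_eq rfl

theorem st_UPE : ST_LOC → ST_UPT → ST_UPE := by
  intro hLOC hUPT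
  obtain ⟨b, C, hb, hC, hU⟩ := hUPT
  refine ⟨b, 2 * C, hb, by positivity, ?_⟩
  intro a b' c j N M z p k A hprm hM hMN hz hp hk hpM hzN hA
  set e := p ^ k with he
  have hepos : 0 < e := pow_pos hp.pos _
  have heZ : ((e : ℕ) : ℤ) = (p : ℤ) ^ k := by rw [he]; push_cast; rfl
  set F := (sbox N M).filter (fun v => ((p : ℤ) ^ k) ∣ qf a b' c v ∧ Free j A v) with hF
  set S := sol a b' c p k with hS
  have hScard : (S.card : ℝ) ≤ 2 * (p : ℝ) ^ (2 * k - (k + 1) / 2) := by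
    have h1 := hLOC a b' c p k hprm hp hk
    have h2 : S.card ≤ 2 * p ^ (2 * k - (k + 1) / 2) := h1
    exact_mod_cast h2
  set r : ℤ × ℤ → ℕ × ℕ := fun v => ((v.1 % (e : ℤ)).toNat, (v.2 % (e : ℤ)).toNat) with hr
  have hmaps : ∀ v ∈ F, r v ∈ S := by
    intro v hv
    rw [hF, Finset.mem_filter] at hv
    obtain ⟨_, hv2, _⟩ := hv
    obtain ⟨h1, _, h3⟩ := emod_toNat hepos v.1
    obtain ⟨h4, _, h6⟩ := emod_toNat hepos v.2
    rw [hS]
    unfold sol
    rw [Finset.mem_filter, Finset.mem_product, Finset.mem_range, Finset.mem_range]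
    refine ⟨⟨h1, h4⟩, ?_⟩
    set r1 : ℤ := (((v.1 % (e : ℤ)).toNat : ℕ) : ℤ) with hr1
    set r2 : ℤ := (((v.2 % (e : ℤ)).toNat : ℕ) : ℤ) with hr2
    show (p : ℤ) ^ k ∣ qf a b' c (r1, r2)
    rw [heZ] at h3 h6
    have h7 : qf a b' c (r1, r2) = qf a b' c v
        - ((v.1 - r1) * (a * (v.1 + r1) + b' * v.2)
          + (v.2 - r2) * (b' * r1 + c * (v.2 + r2))) := by
      simp only [qf]
      ring
    rw [h7]
    exact dvd_sub hv2 (dvd_add (Dvd.dvd.mul_right h3 _) (Dvd.dvd.mul_right h6 _))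
  have hfib : ∀ s ∈ S, (((F.filter (fun v => r v = s)).card : ℕ) : ℝ)
      ≤ C * ((M : ℝ) * N / (e : ℝ) ^ 2) * sw A := by
    intro s _
    have h1 := hU j N M z e A ((s.1 : ℤ), (s.2 : ℤ)) hM hMN hz hepos hpM hzN (by
      intro l hl
      obtain ⟨h2, h3, h4, h5⟩ := hA l hl
      refine ⟨h2, h3, h4, ?_⟩
      intro h6
      exact h5 ((Nat.prime_dvd_prime_iff_eq h2 hp).mp (h2.dvd_of_dvd_pow h6)))
    refine le_trans ?_ h1
    have h7 : (F.filter (fun v => r v = s)).card ≤ ((sbox N M).filter (fun v =>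
        (e : ℤ) ∣ v.1 - ((s.1 : ℤ), (s.2 : ℤ)).1 ∧ (e : ℤ) ∣ v.2 - ((s.1 : ℤ), (s.2 : ℤ)).2 ∧
          Free j A v)).card := by
      refine Finset.card_le_card ?_
      intro v hv
      rw [Finset.mem_filter, hF, Finset.mem_filter] at hv
      obtain ⟨⟨hv1, _, hv3⟩, hv4⟩ := hv
      rw [Finset.mem_filter]
      obtain ⟨_, _, h3⟩ := emod_toNat hepos v.1
      obtain ⟨_, _, h6⟩ := emod_toNat hepos v.2
      have h8 : (v.1 % (e : ℤ)).toNat = s.1 := congrArg Prod.fst hv4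
      have h9 : (v.2 % (e : ℤ)).toNat = s.2 := congrArg Prod.snd hv4
      rw [h8] at h3
      rw [h9] at h6
      exact ⟨hv1, h3, h6, hv3⟩
    exact_mod_cast h7
  have hcard : F.card = ∑ s ∈ S, (F.filter (fun v => r v = s)).card :=
    Finset.card_eq_sum_card_fiberwise (fun v hv => hmaps v hv)
  have hsw : 0 < sw A := Real.exp_pos _
  have hp0 : (0 : ℝ) < (p : ℝ) := by exact_mod_cast hp.pos
  have hpe : (e : ℝ) ^ 2 = (p : ℝ) ^ (2 * k - (k + 1) / 2) * (p : ℝ) ^ ((k + 1) / 2) := by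
    rw [he]
    push_cast
    rw [← pow_mul, ← pow_add]
    congr 1
    omega
  have hQ : (0 : ℝ) ≤ C * ((M : ℝ) * N / (e : ℝ) ^ 2) * sw A := by positivity
  calc ((F.card : ℕ) : ℝ) = ∑ s ∈ S, (((F.filter (fun v => r v = s)).card : ℕ) : ℝ) := by
        rw [hcard]
        push_cast
        rfl
    _ ≤ ∑ _s ∈ S, C * ((M : ℝ) * N / (e : ℝ) ^ 2) * sw A := Finset.sum_le_sum hfib
    _ = (S.card : ℝ) * (C * ((M : ℝ) * N / (e : ℝ) ^ 2) * sw A) := by
        rw [Finset.sum_const, nsmul_eq_mul]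
    _ ≤ (2 * (p : ℝ) ^ (2 * k - (k + 1) / 2)) * (C * ((M : ℝ) * N / (e : ℝ) ^ 2) * sw A) :=
        mul_le_mul_of_nonneg_right hScard hQ
    _ = 2 * C * ((M : ℝ) * N / (p : ℝ) ^ ((k + 1) / 2)) * sw A := by
        rw [hpe]
        have h1 : (p : ℝ) ^ (2 * k - (k + 1) / 2) ≠ 0 := by positivity
        have h2 : (p : ℝ) ^ ((k + 1) / 2) ≠ 0 := by positivity
        field_simp

end Pool.Agent.Helper19.UG
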